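import Pool.Agent.W5h40.WlpQ.All

/-!
# Powers of monomial complete intersections: the weak Lefschetz property for `n ≥ 4`

Let `K` be a field of characteristic zero and `T_{n,d,k} = K[x_1, …, x_n] / (x_1 ^ d, …, x_n ^ d) ^ k`.
For all `n ≥ 4`, `d`, `k`, except for the three triples `(5, 4, 3)`, `(5, 6, 2)`, `(7, 6, 2)`, we decide
the weak Lefschetz property: it holds exactly for

* `d = 1`; `k = 1`; `k = 2` and `d ≤ 3`;
* `(d, k) = (2, 3), (4, 2)` and `n` odd;
* `(n, d, k) = (4, 2, 3), (4, 4, 2), (7, 2, 4)` and `(5, 2, k)`, `k ≤ 7`.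

In these cases every linear form with nonzero coefficients has maximal rank in all degrees; in all
other cases no linear form has maximal rank from degree `m - 1` to degree
`m = (k - 1) d + ⌊n (d - 1) / 2⌋`.

Proof. By torus action and semicontinuity it suffices to consider `L = x_1 + … + x_n`. Let
`A = S / J`, `J = (x_1 ^ d, …, x_n ^ d)`, and `D = d - 1`. From degree `m` on the multiplication is
surjective, and it is never surjective from `m - 1` to `m` (translation invariant polynomials in the
inverse system). So everything depends on the injectivity from `m - 1` to `m`.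

Failure:
* `k = 2`, `n D` even, `(n - 2) (D - 2) ≥ 4`: if `L` were injective, then every translation invariant
  polynomial of degree `(n - 2) D / 2` with exponents at most `D` would be a sum of such polynomials
  each of which misses a variable; but products of differences along a forest with multiplicities
  contain a monomial in which all variables occur. For `n D` odd there is a similar criterion (monomials
  with all exponents at least two), which applies for `(n - 2) (D - 4) ≥ 7`.
* `k ≥ 3`: under suitable groups `S_a × S_b` of permutations of the variables there are more orbits or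
  types of monomials in degree `m - 1` than in degree `m`; multiplication by `x_1 ^ d` carries the
  failure for `k` over to `k + 1`.

Weak Lefschetz property:
* `k = 2`, `d = 3`: induction on `n` with the contractions `V₂ ⊗ V₂ → V₀` and `V₂ ⊗ V₂ → V₂`.
* `k = 2`, `d = 4`, `n` odd: an element of the kernel gives a linear functional `φ` on the translation
  invariant polynomials of degree `M = (3 n - 5) / 2` with exponents at most three. These are spanned by
  the products of differences `G = ∏ (x_s - x_t)` over the edges of multigraphs with `M` edges and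
  maximal degree three, and `φ (G) = 0` if some vertex has degree at most one. Otherwise exactly five
  vertices have degree two. For two of them, `a` and `d`, put `q_{ad} (e) = φ (G (x_a - x_d) / e)` for the
  edges `e`. The three-term relation shows that (with signs) all edges at a vertex `t` have the same value
  `ψ_{ad} (t)`, that `ψ_{ad}` changes sign along edges, `ψ_{ad} (a) = φ (G) = - ψ_{ad} (d)`, and `ψ_{ad}`
  vanishes at the other vertices of degree two. If `x = φ (G) ≠ 0`, compare the degree sums of the
  level sets of `(ψ_{ad}, ψ_{ad'})` at `(x, x)` and `(- x, - x)`: they are equal, but they are `2` and `0`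
  modulo `3`, a contradiction.
* `k = 3`, `d = 2`, `n` odd: induction on `n` with the contraction `V₁ ⊗ V₁ → V₀`: in the kernel,
  exponents one may be moved to positions with exponent zero without changing the coefficient.
* `(5, 2, k)`, `k ≤ 7`: a multiple of `L` which is a polynomial in the squares is divisible by all
  sixteen forms `± x_1 ± … ± x_5`, so its degree is at least `16`.
* `(7, 2, 4)`: contraction to `(5, 2, 4)` and 23 linear relations.
* `(4, 2, 3)`, `(4, 4, 2)`: one-sided inverses modulo `251`.
-/

set_option autoImplicit false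

open MvPolynomial

namespace Pool.Agent.Results.MP_8b82cd_ag.AllButThree

/-- Multiplication by `L` from degree `i` to degree `i + 1` of the graded algebra `S / J`
is injective or surjective. -/
def MaxRank {K : Type*} [Field K] {n : ℕ} (J : Ideal (MvPolynomial (Fin n) K))
    (L : MvPolynomial (Fin n) K) (i : ℕ) : Prop :=
  (∀ f : MvPolynomial (Fin n) K, f.IsHomogeneous i → L * f ∈ J → f ∈ J) ∨
  (∀ g : MvPolynomial (Fin n) K, g.IsHomogeneous (i + 1) →
    ∃ f : MvPolynomial (Fin n) K, f.IsHomogeneous i ∧ g - L * f ∈ J)

/-- The weak Lefschetz property of `S / J`: for a generic linear form, that is for all linear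
forms `∑ a_c x_c` whose coefficient vector `a` lies outside the zero set of some nonzero
polynomial `P`, all multiplications from degree `i` to degree `i + 1` have maximal rank. -/
def WLP {K : Type*} [Field K] {n : ℕ} (J : Ideal (MvPolynomial (Fin n) K)) : Prop :=
  ∃ P : MvPolynomial (Fin n) K, P ≠ 0 ∧ ∀ a : Fin n → K, eval a P ≠ 0 →
    ∀ i : ℕ, MaxRank J (∑ c, C (a c) * X c) i

/-- The cases with the weak Lefschetz property. -/
def Good (n d k : ℕ) : Prop :=
  d = 1 ∨ k = 1 ∨ (k = 2 ∧ d ≤ 3) ∨ (Odd n ∧ ((d = 2 ∧ k = 3) ∨ (d = 4 ∧ k = 2))) ∨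
    (n = 4 ∧ ((d = 2 ∧ k = 3) ∨ (d = 4 ∧ k = 2))) ∨ (n = 5 ∧ d = 2 ∧ k ≤ 7) ∨
    (n = 7 ∧ d = 2 ∧ k = 4)

/-- The three cases which are left open. -/
def Left (n d k : ℕ) : Prop :=
  (n = 5 ∧ d = 4 ∧ k = 3) ∨ (n = 5 ∧ d = 6 ∧ k = 2) ∨ (n = 7 ∧ d = 6 ∧ k = 2)

/-- Let `n ≥ 4`, and let `(n, d, k)` be none of the triples `(5, 4, 3)`, `(5, 6, 2)`, `(7, 6, 2)`. Then
`T_{n,d,k} = K[x_1, …, x_n] / (x_1 ^ d, …, x_n ^ d) ^ k` has the weak Lefschetz property if and only if
`Good n d k`. In these cases all linear forms with nonzero coefficients have maximal rank in all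
degrees, in all other cases no linear form has maximal rank from degree `m - 1` to degree
`m = (k - 1) d + ⌊n (d - 1) / 2⌋`. -/
theorem result {K : Type*} [Field K] [CharZero K] {n d k : ℕ} (hn : 4 ≤ n) (hd : 1 ≤ d)
    (hk : 1 ≤ k) (hl : ¬ Left n d k) :
    (WLP ((Ideal.span (Set.range fun c : Fin n => (X c : MvPolynomial (Fin n) K) ^ d)) ^ k) ↔
      Good n d k) ∧
    (Good n d k → ∀ a : Fin n → K, (∀ c, a c ≠ 0) → ∀ i : ℕ, MaxRank
        ((Ideal.span (Set.range fun c : Fin n => (X c : MvPolynomial (Fin n) K) ^ d)) ^ k)
        (∑ c, C (a c) * X c) i) ∧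
    (¬ Good n d k → ∀ L : MvPolynomial (Fin n) K, L.IsHomogeneous 1 → ¬ MaxRank
        ((Ideal.span (Set.range fun c : Fin n => (X c : MvPolynomial (Fin n) K) ^ d)) ^ k)
        L ((k - 1) * d + n * (d - 1) / 2 - 1)) := by
  have hpos : Good n d k → ∀ a : Fin n → K, (∀ c, a c ≠ 0) → ∀ i : ℕ, MaxRank
        ((Ideal.span (Set.range fun c : Fin n => (X c : MvPolynomial (Fin n) K) ^ d)) ^ k)
        (∑ c, C (a c) * X c) i :=
    fun h a ha i => Pool.Agent.W5h40.WlpE.maxRank_of_rank hd
      (Pool.Agent.W5h40.WlpQ.rankB hn hd hk h i) ha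
  have hneg : ¬ Good n d k → ∀ L : MvPolynomial (Fin n) K, L.IsHomogeneous 1 → ¬ MaxRank
        ((Ideal.span (Set.range fun c : Fin n => (X c : MvPolynomial (Fin n) K) ^ d)) ^ k)
        L ((k - 1) * d + n * (d - 1) / 2 - 1) := by
    intro h L hL
    refine Pool.Agent.W5h40.WlpQ.not_maxRankB hn hd hk hl h ?_ hL
    have h1 : d ≠ 1 := fun h1 => h (Or.inl h1)
    have h2 : k ≠ 1 := fun h2 => h (Or.inr (Or.inl h2))
    have h3 : 1 ≤ (k - 1) * d := Nat.mul_pos (by omega) (by omega)
    omega
  refine ⟨⟨?_, ?_⟩, hpos, hneg⟩
  · rintro ⟨P, hP, hW⟩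
    by_contra hcon
    obtain ⟨a, ha⟩ : ∃ a : Fin n → K, eval a P ≠ 0 := by
      by_contra hcon
      push Not at hcon
      exact hP (MvPolynomial.funext fun a => by rw [hcon a, map_zero])
    exact hneg hcon _ (Pool.Agent.Helper720.Level.lin_homogeneous a) (hW a ha _)
  · intro h
    refine ⟨∏ c, X c, Finset.prod_ne_zero_iff.2 fun c _ => X_ne_zero c, ?_⟩
    intro a ha i
    refine hpos h a (fun c => ?_) i
    rw [map_prod] at ha
    have := Finset.prod_ne_zero_iff.1 ha c (Finset.mem_univ c)
    rwa [eval_X] at this

end Pool.Agent.Results.MP_8b82cd_ag.AllButThree
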