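import Pool.Agent.W5h40.WlpT.Main

/-!
# Powers of monomial complete intersections in three variables: a resonance which destroys the weak
Lefschetz property

Let `K` be a field of characteristic zero and `T_{3,d,k} = K[x, y, z] / (x ^ d, y ^ d, z ^ d) ^ k`, `k ≥ 3`.
We show that the weak Lefschetz property fails whenever `2 d` is close to an odd multiple of `k + 3`:
whenever there is an odd number `e` with `|(k + 3) e - 2 d| ≤ 2`, where for `k = 3` and `k = 7` one
has to require `(k + 3) e = 2 d`. For each `k ≥ 3` these are infinitely many `d`, one, two or three residue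
classes modulo `k + 3`. No linear form has maximal rank from degree `k d + e - 2` to `k d + e - 1`.

Proof. By torus action and semicontinuity it suffices to consider `L = x + y + z`. Multiplication by `L`
commutes with the symmetric group `S_3`. With `i = k d + e - 2` and `δ = (k + 3) e - 2 d` one finds
`dim T_i - dim T_(i+1) = k δ / 2`, while for odd `e` a transposition has at least `⌊k / 2⌋` more fixed
monomials in degree `i` than in degree `i + 1`. By Burnside's lemma there are then more orbits of monomials in
degree `i` than in degree `i + 1` (so the map is not injective on the invariants), and fewer free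
orbits, so that the map is not surjective on the antisymmetric elements.
-/

set_option autoImplicit false

open MvPolynomial

namespace Pool.Agent.Results.MP_8b82cd_ag.ThreeVariables

/-- Multiplication by `L` from degree `i` to degree `i + 1` of the graded algebra `S / J`
is injective or surjective. -/
def MaxRank {K : Type*} [Field K] {n : ℕ} (J : Ideal (MvPolynomial (Fin n) K))
    (L : MvPolynomial (Fin n) K) (i : ℕ) : Prop :=
  (∀ f : MvPolynomial (Fin n) K, f.IsHomogeneous i → L * f ∈ J → f ∈ J) ∨
  (∀ g : MvPolynomial (Fin n) K, g.IsHomogeneous (i + 1) →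
    ∃ f : MvPolynomial (Fin n) K, f.IsHomogeneous i ∧ g - L * f ∈ J)

/-- The weak Lefschetz property of `S / J`: for a generic linear form, that is for all linear
forms `∑ a_c x_c` whose coefficient vector `a` lies outside the zero set of some nonzero
polynomial `P`, all multiplications from degree `i` to degree `i + 1` have maximal rank. -/
def WLP {K : Type*} [Field K] {n : ℕ} (J : Ideal (MvPolynomial (Fin n) K)) : Prop :=
  ∃ P : MvPolynomial (Fin n) K, P ≠ 0 ∧ ∀ a : Fin n → K, eval a P ≠ 0 →
    ∀ i : ℕ, MaxRank J (∑ c, C (a c) * X c) i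

/-- Let `k ≥ 3` and `d ≥ 1`, and let `e` be an odd number with `|(k + 3) e - 2 d| ≤ 2`; if `k = 3` or
`k = 7` assume that `(k + 3) e = 2 d`. Then `T_{3,d,k} = K[x, y, z] / (x ^ d, y ^ d, z ^ d) ^ k` fails the
weak Lefschetz property; no linear form has maximal rank from degree `k d + e - 2` to degree
`k d + e - 1`. -/
theorem result {K : Type*} [Field K] [CharZero K] {d k e : ℕ} (hd : 1 ≤ d) (hk : 3 ≤ k)
    (he : Odd e) (h1 : |((k : ℤ) + 3) * e - 2 * d| ≤ 2)
    (h2 : k = 3 ∨ k = 7 → (k + 3) * e = 2 * d) :
    ¬ WLP ((Ideal.span (Set.range fun c : Fin 3 => (X c : MvPolynomial (Fin 3) K) ^ d)) ^ k) ∧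
    ∀ L : MvPolynomial (Fin 3) K, L.IsHomogeneous 1 →
      ¬ MaxRank
        ((Ideal.span (Set.range fun c : Fin 3 => (X c : MvPolynomial (Fin 3) K) ^ d)) ^ k)
        L (k * d + e - 2) := by
  have hm : 2 ≤ k * d + e := by
    have : 3 * 1 ≤ k * d := Nat.mul_le_mul hk hd
    omega
  have main : ∀ L : MvPolynomial (Fin 3) K, L.IsHomogeneous 1 →
      ¬ MaxRank
        ((Ideal.span (Set.range fun c : Fin 3 => (X c : MvPolynomial (Fin 3) K) ^ d)) ^ k)
        L (k * d + e - 2) := by
    intro L hL
    refine Pool.Agent.W5h40.WlpT.not_maxRank3 hd hk he (by omega) ?_ hL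
    have hZ : ((k : ℤ) + 3) * e = ((k + 3) * e : ℕ) := by push_cast; ring
    rw [hZ, abs_le] at h1
    have h3 : (k = 3 ∨ k = 7) ∨ (k ≠ 3 ∧ k ≠ 7) := by omega
    rcases h3 with h3 | h3
    · exact Or.inl (h2 h3)
    · omega
  refine ⟨?_, main⟩
  rintro ⟨P, hP, hW⟩
  obtain ⟨a, ha⟩ : ∃ a : Fin 3 → K, eval a P ≠ 0 := by
    by_contra hcon
    push Not at hcon
    exact hP (MvPolynomial.funext fun a => by rw [hcon a, map_zero])
  exact main _ (Pool.Agent.Helper720.Level.lin_homogeneous a) (hW a ha _)

end Pool.Agent.Results.MP_8b82cd_ag.ThreeVariables
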